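import Mathlib
import Pool.Agent.SXF.Stmts

set_option autoImplicit false

/-! Row KVE of the squad SXF. -/

namespace Pool.Agent.SXF.H23

open MvPolynomial Pool.Agent.SXF

/-- Independent kernel vectors with entries in the domain `R`. -/
theorem kerVecs (R K : Type) [CommRing R] [IsDomain R] [Field K] [Algebra R K] [IsFractionRing R K]
    (t b T : ℕ) (htb : t + b ≤ T) (J : Fin t → Fin T → R) :
    ∃ w : Fin b → Fin T → R,
      LinearIndependent K (fun r : Fin b => fun j : Fin T => algebraMap R K (w r j)) ∧
      ∀ r l, ∑ j, w r j * J l j = 0 := by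
  classical
  let M : Matrix (Fin t) (Fin T) K := Matrix.of fun l j => algebraMap R K (J l j)
  have hrk := LinearMap.finrank_range_add_finrank_ker M.mulVecLin
  have hle : Module.finrank K (LinearMap.range M.mulVecLin) ≤ t := by
    have := Submodule.finrank_le (LinearMap.range M.mulVecLin)
    simpa using this
  have hker : b ≤ Module.finrank K (LinearMap.ker M.mulVecLin) := by
    have hT : Module.finrank K (Fin T → K) = T := by simp
    rw [hT] at hrk
    omega
  let B := Module.finBasis K (LinearMap.ker M.mulVecLin)
  let w0 : Fin b → (Fin T → K) := fun r => (B (Fin.castLE hker r) : Fin T → K)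
  have hw0 : LinearIndependent K w0 := by
    have h1 : LinearIndependent K (fun r : Fin b => B (Fin.castLE hker r)) :=
      B.linearIndependent.comp _ (Fin.castLE_injective hker)
    have h2 := h1.map' (LinearMap.ker M.mulVecLin).subtype (Submodule.ker_subtype _)
    exact h2
  have hw0k : ∀ r, M.mulVecLin (w0 r) = 0 := fun r => (B (Fin.castLE hker r)).2
  obtain ⟨c, hc⟩ := IsLocalization.exist_integer_multiples_of_finite (nonZeroDivisors R)
    (fun x : Fin b × Fin T => w0 x.1 x.2)
  have hc' : ∀ r : Fin b, ∀ j : Fin T, ∃ z : R, algebraMap R K z = algebraMap R K (c : R) * w0 r j := by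
    intro r j
    obtain ⟨z, hz⟩ := hc (r, j)
    refine ⟨z, ?_⟩
    rw [hz]
    exact Algebra.smul_def _ _
  choose w hw using hc'
  have hc0 : algebraMap R K (c : R) ≠ 0 := by
    intro h
    have h2 : (c : R) = 0 := (IsFractionRing.injective R K) (by rw [h, map_zero])
    exact nonZeroDivisors.ne_zero c.2 h2
  refine ⟨w, ?_, ?_⟩
  · have : (fun r : Fin b => fun j : Fin T => algebraMap R K (w r j)) =
        fun r : Fin b => algebraMap R K (c : R) • w0 r := by
      funext r j
      rw [hw]
      rfl
    rw [this]
    have h3 := hw0.units_smul (fun _ => Units.mk0 _ hc0)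
    exact h3
  · intro r l
    apply IsFractionRing.injective R K
    rw [map_zero, map_sum]
    have h4 := congrFun (hw0k r) l
    have h5 : ∑ j, algebraMap R K (J l j) * w0 r j = 0 := by
      simpa [M, Matrix.mulVec, dotProduct] using h4
    calc ∑ j, algebraMap R K (w r j * J l j)
        = ∑ j, algebraMap R K (c : R) * (algebraMap R K (J l j) * w0 r j) := by
          refine Finset.sum_congr rfl fun j _ => ?_
          rw [map_mul, hw]
          ring
      _ = algebraMap R K (c : R) * ∑ j, algebraMap R K (J l j) * w0 r j := by
          rw [Finset.mul_sum]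
      _ = 0 := by rw [h5, mul_zero]

/-- The determinant of the values of the forms at the kernel vectors is not zero. -/
theorem det_ne (hI : InjStmt) (K : Type) [Field K] [CharZero K] (b T : ℕ) (a : Fin b → ℕ)
    (ha : Function.Injective a) (ha1 : ∀ i, 1 ≤ a i) (w : Fin b → Fin T → K)
    (hw : LinearIndependent K w) :
    (Matrix.of fun i r : Fin b => ∑ j : Fin T, Polynomial.C (w r j) *
      (Polynomial.C (a i : K) * Polynomial.X) ^ (j : ℕ)).det ≠ 0 := by
  classical
  intro h0
  obtain ⟨g, hg0, hg⟩ := Matrix.exists_mulVec_eq_zero_iff.mpr h0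
  apply hg0
  let p : Fin T → Polynomial K := fun j => ∑ r, Polynomial.C (w r j) * g r
  have hcoef : ∀ m, (fun j => (p j).coeff m) = ∑ r, (g r).coeff m • w r := by
    intro m
    funext j
    simp only [p, Polynomial.finset_sum_coeff, Polynomial.coeff_C_mul, Finset.sum_apply,
      Pi.smul_apply, smul_eq_mul]
    exact Finset.sum_congr rfl fun r _ => mul_comm _ _
  have hp : p = 0 := by
    refine hI K b T a ha ha1 (Submodule.span K (Set.range w)) ?_ p ?_ ?_
    · have := finrank_range_le_card (R := K) w
      simpa [Set.finrank] using this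
    · intro m
      rw [hcoef]
      exact Submodule.sum_mem _ fun r _ =>
        Submodule.smul_mem _ _ (Submodule.subset_span (Set.mem_range_self r))
    · intro i
      have h1 := congrFun hg i
      simp only [Matrix.mulVec, dotProduct, Matrix.of_apply, Pi.zero_apply] at h1
      rw [← h1]
      simp only [p, Finset.sum_mul]
      rw [Finset.sum_comm]
      refine Finset.sum_congr rfl fun r _ => Finset.sum_congr rfl fun j _ => ?_
      ring
  funext r
  ext m
  have h2 : ∑ r, (g r).coeff m • w r = 0 := by
    rw [← hcoef, hp]
    funext j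
    simp
  have h3 := Fintype.linearIndependent_iff.mp hw (fun r => (g r).coeff m) h2 r
  simpa using h3

/-- Row KVE. -/
theorem kve (hI : InjStmt) : KveStmt := by
  intro E _ _ t b T htb a ha ha1 h i0
  classical
  have hcz : CharZero (FractionRing (MvPolynomial (Fin T) E)) :=
    charZero_of_injective_algebraMap
      (IsFractionRing.injective (MvPolynomial (Fin T) E) (FractionRing (MvPolynomial (Fin T) E)))
  obtain ⟨w, hw, hwk⟩ := kerVecs (MvPolynomial (Fin T) E) (FractionRing (MvPolynomial (Fin T) E))
    t b T htb (fun l j => pderiv j (h l))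
  let A : Matrix (Fin b) (Fin b) (Polynomial (MvPolynomial (Fin T) E)) :=
    Matrix.of fun i r => ∑ j : Fin T, Polynomial.C (w r j) *
      (Polynomial.C (a i : MvPolynomial (Fin T) E) * Polynomial.X) ^ (j : ℕ)
  have hA : A.det ≠ 0 := by
    intro h0
    have h1 := det_ne hI (FractionRing (MvPolynomial (Fin T) E)) b T a ha ha1 _ hw
    apply h1
    have h2 : (Polynomial.mapRingHom (algebraMap (MvPolynomial (Fin T) E)
        (FractionRing (MvPolynomial (Fin T) E)))).mapMatrix A = (Matrix.of fun i r : Fin b =>
        ∑ j : Fin T, Polynomial.C (algebraMap (MvPolynomial (Fin T) E)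
          (FractionRing (MvPolynomial (Fin T) E)) (w r j)) *
        (Polynomial.C (a i : FractionRing (MvPolynomial (Fin T) E)) * Polynomial.X) ^ (j : ℕ)) := by
      ext1 i r
      simp [A, RingHom.mapMatrix_apply, Matrix.map_apply, Polynomial.map_sum]
    rw [← h2, ← RingHom.map_det, h0, map_zero]
  refine ⟨fun j => ∑ r, Polynomial.C (w r j) * A.adjugate r i0, A.det, hA, ?_, ?_⟩
  · intro l
    calc ∑ j, (∑ r, Polynomial.C (w r j) * A.adjugate r i0) * Polynomial.C (pderiv j (h l))
        = ∑ r, A.adjugate r i0 * Polynomial.C (∑ j, w r j * pderiv j (h l)) := by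
          simp only [Finset.sum_mul]
          rw [Finset.sum_comm]
          refine Finset.sum_congr rfl fun r _ => ?_
          rw [map_sum, Finset.mul_sum]
          refine Finset.sum_congr rfl fun j _ => ?_
          rw [map_mul]
          ring
      _ = 0 := by
          refine Finset.sum_eq_zero fun r _ => ?_
          rw [hwk r l, map_zero, mul_zero]
  · intro i
    have h3 : ∑ j : Fin T, (∑ r, Polynomial.C (w r j) * A.adjugate r i0) *
        (Polynomial.C (a i : MvPolynomial (Fin T) E) * Polynomial.X) ^ (j : ℕ) =
        (A * A.adjugate) i i0 := by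
      rw [Matrix.mul_apply]
      simp only [Finset.sum_mul, A, Matrix.of_apply]
      rw [Finset.sum_comm]
      refine Finset.sum_congr rfl fun r _ => Finset.sum_congr rfl fun j _ => ?_
      ring
    rw [h3, Matrix.mul_adjugate, Matrix.smul_apply, Matrix.one_apply]
    split_ifs <;> simp

end Pool.Agent.SXF.H23
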